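import Pool.Agent.U54.KR.Main

set_option autoImplicit false

/-!
# Bounded-length reachability oracles: the conjectured tradeoff fails for every `k ≥ 3`

The conjecture says that oracles for paths with at most `k` edges in sparse directed graphs with
query time `T ≤ n ^ δ` need space about `n ^ 2 / T ^ (2 / (k - 1))`. We construct oracles with space
`O (n ^ 2 / T ^ (1 / ⌊k / 2⌋ + 1 / ⌈k / 2⌉))` and query time `O (T)`, for all `T ≤ n ^ (1 / 11)`.
The exponent is `4 / k` for even `k` and `4 k / (k ^ 2 - 1)` for odd `k`; for `k = 2` it is the known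
exponent `2`, and for every `k ≥ 3` it is larger than `2 / (k - 1)` (nearly twice as large).

The oracles are implemented on a word RAM (`Pool/Agent/H588R2/Model.lean`): one program, which
only reads the memory, works for all `k`, all densities and all `T`. The definitions of the problem
are in `Pool/Agent/U54/KR/Defs.lean`.

## Idea

Let `d x` be the total degree (plus one) and `2 ^ (α x - 1) ≤ d x < 2 ^ (α x)`. For a vertex `u` the
cost of a walk `u = x 0, …, x s` is `α (x 0) + … + α (x (s - 1))`. By Kraft's inequality there are at
most `2 ^ m` walks with `s` steps and cost at most `m`; the same holds for walks ending in `v`. We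
store

* all pairs `(x, y)` with `α x + α y ≥ L` with their distance, where
  `2 ^ L = T ^ (1 / ⌊k / 2⌋ + 1 / ⌈k / 2⌉)` up to a constant: there are at most
  `O (n ^ 2 / 2 ^ L)` of them;
* all pairs `(u, v)` connected by a walk with at most `k` steps and cost at most `k L`: there are
  only `n T ^ O (1)` of them. They are stored in overlaid sparse rows;
* for every vertex the end points of the walks with at most `k` steps and cost at most
  `log₂ T`, forwards and backwards.

A query `(u, v)` is looked up among the pairs of the second kind, and for all walks from `u` to `x` and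
from `y` to `v` of total cost at most `log₂ T` the pair `(x, y)` is looked up in the first table; these
are `O (T)` pairs by Kraft's inequality again. If a shortest path from `u` to `v` has no vertex with
`α ≥ L - 1` its cost is at most `k L`. Otherwise let its first such vertex be the `i`-th one and its
last one the `j`-th one from the end, `i + j ≤ k`. If the cost of the path to one of them is at most
`log₂ T` we are done. Otherwise, for each `m ≤ log₂ T` we take the prefix of the path that is as
long as possible with cost at most `m`, and the suffix that is as long as possible with cost at most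
`log₂ T - m`. By the Cauchy-Schwarz inequality the average over `m` of the sum of the `α` of their two
end points is at least `(1 / i + 1 / j) log₂ T`, and so one of these pairs is in the table.
-/

namespace Pool.Agent.Results.MP_a349b4_lc.BetterTradeoff

open Pool.Agent.H588R2 Pool.Agent.U54.KR Filter

/-- There is a word-RAM program `P`, which only reads the memory, such that

* for all `k ≥ 2` and `C > 0` there is a constant `K` such that for all `n ≥ 2` and all real `T ≥ 1`
  with `T ^ 11 ≤ n` the `k`-reachability problem for directed graphs with `n` vertices and at most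
  `C n` edges is solved by `P` with query time at most `K T` and data structures with at most
  `K n ^ 2 / T ^ (1 / ⌊k / 2⌋ + 1 / ⌈k / 2⌉)` words of at least `log₂ n` and at most `K ln n` bits;
* in particular, for all `k ≥ 3`, `C > 0` and `δ > 0` there are such data structures with query time
  `T n ≤ n ^ δ` whose space `S n` satisfies, for every `c`, that
  `S n * T n ^ (2 / (k - 1)) < n ^ 2 / (ln n) ^ c` for all large `n`. -/
theorem result : ∃ P : List Instr, ReadOnly P ∧
    (∀ k : ℕ, 2 ≤ k → ∀ C : ℝ, 0 < C → ∃ K : ℝ, ∀ (n : ℕ) (T : ℝ), 2 ≤ n → 1 ≤ T → T ^ 11 ≤ n →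
      ∃ w S : ℕ, Real.logb 2 n ≤ w ∧ (w : ℝ) ≤ K * Real.log n ∧
        (S : ℝ) ≤ K * (n : ℝ) ^ 2 /
          T ^ (1 / ((k / 2 : ℕ) : ℝ) + 1 / (((k + 1) / 2 : ℕ) : ℝ)) ∧
        Oracle k C P n w S (K * T)) ∧
    (∀ k : ℕ, 3 ≤ k → ∀ C : ℝ, 0 < C → ∀ δ : ℝ, 0 < δ →
      ∃ (K : ℝ) (w S : ℕ → ℕ) (T : ℕ → ℝ),
        (∀ᶠ n : ℕ in atTop, Real.logb 2 n ≤ w n ∧ (w n : ℝ) ≤ K * Real.log n ∧
          T n ≤ (n : ℝ) ^ δ ∧ Oracle k C P n (w n) (S n) (T n)) ∧
        ∀ c : ℝ, ∀ᶠ n : ℕ in atTop,
          (S n : ℝ) * T n ^ (2 / ((k : ℝ) - 1)) < (n : ℝ) ^ 2 / Real.log n ^ c) := by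
  refine ⟨prog, readOnly_prog, ?_, ?_⟩
  · intro k hk C hC
    obtain ⟨K, _, hK⟩ := tradeoff hk C hC
    exact ⟨K, hK⟩
  · intro k hk C hC δ hδ
    exact negated hk C hC δ hδ

end Pool.Agent.Results.MP_a349b4_lc.BetterTradeoff
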